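import Mathlib
import Pool.Agent.Work.MP_38bc51_pr.HC.Hard
import Pool.Agent.Work.MP_38bc51_pr.HC.Mix

/-!
# A sign law read along the zeros of a hard-core sequence
-/

namespace HC38bc51.RN

open MeasureTheory ProbabilityTheory HC38bc51.HC

section

variable {Ω : Type} [MeasurableSpace Ω]

theorem measurable_psum' {c : Ω → ℤ → ℕ} (hc : ∀ j, Measurable (fun ω => c ω j)) (i : ℤ) :
    Measurable (fun ω => psum (c ω) i) := by
  unfold psum
  have h : ∀ j, Measurable (fun ω => (c ω j : ℤ)) := fun j =>
    (measurable_from_top (f := fun n : ℕ => (n : ℤ))).comp (hc j)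
  exact (Finset.measurable_sum _ fun j _ => h j).sub (Finset.measurable_sum _ fun j _ => h j)

theorem measurable_phi' {c : Ω → ℤ → ℕ} (hc : ∀ j, Measurable (fun ω => c ω j))
    (φ : Finset ℤ → ℝ) (S : Finset ℤ) : Measurable (fun ω => φ (S.image (psum (c ω)))) := by
  have h1 : Measurable (fun ω (a : S) => psum (c ω) a) :=
    measurable_pi_iff.2 fun a => measurable_psum' hc a
  have h2 : Measurable (fun g : S → ℤ => φ (Finset.univ.image g)) := Measurable.of_discrete
  have h3 : (fun ω => φ (S.image (psum (c ω)))) =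
      (fun g : S → ℤ => φ (Finset.univ.image g)) ∘ (fun ω (a : S) => psum (c ω) a) := by
    funext ω
    simp only [Function.comp]
    congr 1
    ext x
    simp
  rw [h3]
  exact h2.comp h1

/-- the map of the construction -/
noncomputable def re (c : Ω → ℤ → ℕ) (p : Ω × (ℤ → Bool)) (i : ℤ) : Bool := p.2 (psum (c p.1) i)

theorem measurable_re {c : Ω → ℤ → ℕ} (hc : ∀ j, Measurable (fun ω => c ω j)) :
    Measurable (re c) := by
  refine measurable_pi_iff.2 fun i => ?_
  apply measurable_to_bool
  have hi : Measurable (fun ω : Ω => psum (c ω) i) := measurable_psum' hc i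
  have e : (fun p : Ω × (ℤ → Bool) => re c p i) ⁻¹' {true} =
      ⋃ n : ℤ, ((fun p : Ω × (ℤ → Bool) => psum (c p.1) i) ⁻¹' {n} ∩
        (fun p : Ω × (ℤ → Bool) => p.2 n) ⁻¹' {true}) := by
    ext p
    simp [re]
  rw [e]
  refine MeasurableSet.iUnion fun n => MeasurableSet.inter ?_ ?_
  · exact (hi.comp measurable_fst) (measurableSet_singleton n)
  · have h2 : Measurable (fun p : Ω × (ℤ → Bool) => p.2 n) :=
      (measurable_pi_apply n).comp measurable_snd
    exact h2 (measurableSet_singleton true)

theorem real_re {P : Measure Ω} [IsProbabilityMeasure P] {Q : Measure (ℤ → Bool)}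
    [IsProbabilityMeasure Q] {c : Ω → ℤ → ℕ} (hc : ∀ j, Measurable (fun ω => c ω j))
    {A : Set (ℤ → Bool)} (hA : MeasurableSet A) :
    ((P.prod Q).map (re c)).real A =
      ∫ ω, Q.real {s | (fun i => s (psum (c ω) i)) ∈ A} ∂P := by
  have hm := measurable_re hc
  rw [measureReal_def, Measure.map_apply hm hA, Measure.prod_apply (hm hA)]
  rw [← integral_toReal]
  · rfl
  · exact (measurable_measure_prodMk_left (hm hA)).aemeasurable
  · exact Filter.Eventually.of_forall fun ω => measure_lt_top _ _

theorem real_re_Cyl {P : Measure Ω} [IsProbabilityMeasure P] {Q : Measure (ℤ → Bool)}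
    [IsProbabilityMeasure Q] {c : Ω → ℤ → ℕ} (hc : ∀ j, Measurable (fun ω => c ω j))
    (S : Finset ℤ) :
    ((P.prod Q).map (re c)).real (Cyl S) =
      ∫ ω, Q.real (Cyl (S.image (psum (c ω)))) ∂P := by
  rw [real_re hc (measurableSet_Cyl S)]
  congr 1
  funext ω
  congr 1
  ext s
  exact mem_Cyl_image.symm

open Classical in
/-- the increments inside the window of `S`, from their values on the window -/
noncomputable def ext (m k : ℕ) (S : Finset ℤ) (y : winU k S → ℕ) (j : ℤ) : ℕ :=
  if h : j ∈ winU k S then y ⟨j, h⟩ else m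

theorem measurable_ext (m k : ℕ) (S : Finset ℤ) (j : ℤ) :
    Measurable (fun y : winU k S → ℕ => ext m k S y j) := by
  unfold ext
  by_cases h : j ∈ winU k S
  · simp only [h, dif_pos]
    exact measurable_pi_apply _
  · simp only [h, dif_neg, not_false_eq_true]
    exact measurable_const

theorem winU_far {k : ℕ} {S T : Finset ℤ} (h : ∀ a ∈ S, ∀ b ∈ T, (k : ℤ) ≤ |a - b|) :
    ∀ j ∈ winU k S, ∀ j' ∈ winU k T, (k : ℤ) < |j - j'| := by
  rintro j ⟨a, ha, b, hb, h1, h2, h3⟩ j' ⟨a', ha', b', hb', h1', h2', h3'⟩
  have e1 := h a ha a' ha'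
  have e2 := h a ha b' hb'
  have e3 := h b hb a' ha'
  have e4 := h b hb b' hb'
  rw [le_abs] at e1 e2 e3 e4
  rw [lt_abs]
  omega

end

theorem mixg {Ω : Type} [MeasurableSpace Ω] {P : Measure Ω} (hP : IsProbabilityMeasure P)
    {m k : ℕ} (hk : 1 ≤ k) {Q : Measure (ℤ → Bool)} (hQ : SignLaw m Q)
    {c : Ω → ℤ → ℕ} (hc : ∀ j, Measurable (fun ω => c ω j))
    (hstat : P.map (fun ω j => c ω (j + 1)) = P.map (fun ω j => c ω j))
    (hdep : ∀ A B : Set ℤ, (∀ a ∈ A, ∀ b ∈ B, (k : ℤ) < |a - b|) →
      IndepFun (fun ω (a : A) => c ω a) (fun ω (b : B) => c ω b) P)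
    (hsum : ∀ (ω : Ω) (i : ℤ), m ≤ ∑ j ∈ Finset.range k, c ω (i + j)) :
    ∃ Q' : Measure (ℤ → Bool), SignLaw k Q' ∧
      chg Q' = ∫ ω, Q.real {s : ℤ → Bool | s 0 ≠ s (c ω 0 : ℤ)} ∂P := by
  classical
  have hQp := hQ.prob
  have hm := measurable_re hc
  have hpQ' : IsProbabilityMeasure ((P.prod Q).map (re c)) :=
    Measure.isProbabilityMeasure_map hm.aemeasurable
  refine ⟨(P.prod Q).map (re c), ⟨hpQ', ?_, ?_, ?_⟩, ?_⟩
  · -- stationarity
    have hm1 : Measurable (fun (x : ℤ → Bool) (i : ℤ) => x (i + 1)) :=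
      measurable_pi_iff.mpr fun i => measurable_pi_apply _
    have : IsProbabilityMeasure (((P.prod Q).map (re c)).map
      (fun (s : ℤ → Bool) (i : ℤ) => s (i + 1))) :=
      Measure.isProbabilityMeasure_map hm1.aemeasurable
    have hcyl : ∀ S : Finset ℤ, (((P.prod Q).map (re c)).map
        (fun (s : ℤ → Bool) (i : ℤ) => s (i + 1))).real (Cyl S) =
        ((P.prod Q).map (re c)).real (Cyl S) := by
      intro S
      rw [map_measureReal_apply hm1 (measurableSet_Cyl S)]
      have e1 : (fun (s : ℤ → Bool) (i : ℤ) => s (i + 1)) ⁻¹' (Cyl S) = Cyl (S.image (· + 1)) := by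
        ext s
        exact mem_Cyl_image.symm
      rw [e1, real_re_Cyl hc, real_re_Cyl hc]
      have e2 : ∀ ω, Q.real (Cyl ((S.image (· + 1)).image (psum (c ω)))) =
          Q.real (Cyl (S.image (psum (fun j => c ω (j + 1))))) := by
        intro ω
        have e3 : (S.image (· + 1)).image (psum (c ω)) =
            (S.image (psum (fun j => c ω (j + 1)))).image (· + (c ω 0 : ℤ)) := by
          rw [Finset.image_image, Finset.image_image]
          congr 1
          funext i
          simp only [Function.comp]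
          rw [psum_shift]
        rw [e3, hQ.phi_shift]
      simp only [e2]
      -- both integrals are integrals against the law of the increments
      have hψ : Measurable (fun y : ℤ → ℕ => Q.real (Cyl (S.image (psum y)))) :=
        measurable_phi' (Ω := ℤ → ℕ) (c := fun y => y) (fun j => measurable_pi_apply j)
          (fun T => Q.real (Cyl T)) S
      have hc1 : Measurable (fun ω (j : ℤ) => c ω (j + 1)) := measurable_pi_iff.2 fun j => hc (j + 1)
      have hc0 : Measurable (fun ω (j : ℤ) => c ω j) := measurable_pi_iff.2 fun j => hc j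
      have i1 := integral_map (μ := P) hc1.aemeasurable hψ.aestronglyMeasurable
      have i0 := integral_map (μ := P) hc0.aemeasurable hψ.aestronglyMeasurable
      rw [hstat] at i1
      rw [← i1, ← i0]
    refine ext_of_generate_finite _ pi_eq (isPiSystem_cylSys Set.univ) ?_ ?_
    · rintro _ ⟨S, -, rfl⟩
      have h := hcyl S
      rw [measureReal_def, measureReal_def, ENNReal.toReal_eq_toReal_iff' (measure_ne_top _ _)
        (measure_ne_top _ _)] at h
      exact h
    · simp
  · -- flip
    have hm2 : Measurable (fun (s : ℤ → Bool) (i : ℤ) => !(s i)) :=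
      measurable_pi_iff.mpr fun i => (measurable_from_top (f := not)).comp (measurable_pi_apply _)
    have hprod : (P.prod Q).map (Prod.map id (fun (s : ℤ → Bool) (i : ℤ) => !(s i))) =
        P.prod Q := by
      rw [← Measure.map_prod_map _ _ measurable_id hm2, hQ.flip, Measure.map_id]
    rw [Measure.map_map hm2 hm]
    have e : (fun (s : ℤ → Bool) (i : ℤ) => !(s i)) ∘ re c =
        re c ∘ (Prod.map id (fun (s : ℤ → Bool) (i : ℤ) => !(s i))) := by
      funext p i
      rfl
    rw [e, ← Measure.map_map hm (measurable_id.prodMap hm2), hprod]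
  · -- dependence range
    intro S T hST
    rw [real_re_Cyl hc, real_re_Cyl hc, real_re_Cyl hc]
    have hpt : ∀ ω, Q.real (Cyl ((S ∪ T).image (psum (c ω)))) =
        Q.real (Cyl (S.image (psum (c ω)))) * Q.real (Cyl (T.image (psum (c ω)))) := by
      intro ω
      rw [Finset.image_union]
      apply hQ.dep
      intro a ha b hb
      obtain ⟨x, hx, rfl⟩ := Finset.mem_image.1 ha
      obtain ⟨y, hy, rfl⟩ := Finset.mem_image.1 hb
      exact psum_sep (hsum ω) (hST x hx y hy)
    have htr : ∀ (U : Finset ℤ) ω, Q.real (Cyl (U.image (psum (c ω)))) =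
        Q.real (Cyl (U.image (psum (ext m k U (fun a : winU k U => c ω a))))) := by
      intro U ω
      refine phi_congr (m := m) (φ := fun T => Q.real (Cyl T)) (fun T c => hQ.phi_shift T c) hQ.dep
        (psum_mono _) (psum_mono _) U ?_
      intro a ha b hb hab hcons
      by_cases hlt : b - a < k
      · left
        refine (psum_congr hab.le fun j hj1 hj2 => ?_).symm
        have hj : j ∈ winU k U := ⟨a, ha, b, hb, hj1, hj2, hlt⟩
        simp only [ext, hj, dif_pos]
      · right
        refine ⟨psum_ge (hsum ω) (by omega), ?_⟩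
        have hj : ∀ j, a ≤ j → j < b → ext m k U (fun a : winU k U => c ω a) j = m := by
          intro j hj1 hj2
          have hj : j ∉ winU k U := by
            rintro ⟨x, hx, y, hy, h1, h2, h3⟩
            have c1 := hcons x hx
            have c2 := hcons y hy
            omega
          simp only [ext, hj, dif_neg, not_false_eq_true]
        have h1 : psum (ext m k U (fun a : winU k U => c ω a)) (a + 1) ≤
            psum (ext m k U (fun a : winU k U => c ω a)) b :=
          psum_mono _ (by omega)
        rw [psum_succ, hj a le_rfl hab] at h1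
        omega
    simp only [hpt]
    simp only [htr S, htr T]
    have hmU : ∀ U : Finset ℤ, Measurable (fun y : winU k U → ℕ =>
        Q.real (Cyl (U.image (psum (ext m k U y))))) := fun U =>
      measurable_phi' (c := fun y => ext m k U y) (fun j => measurable_ext m k U j)
        (fun T => Q.real (Cyl T)) U
    have hmc : ∀ U : Finset ℤ, Measurable (fun ω (a : winU k U) => c ω a) := fun U =>
      measurable_pi_iff.2 fun a => hc a
    have hind := (hdep _ _ (winU_far hST)).comp (hmU S) (hmU T)
    exact hind.integral_mul_eq_mul_integral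
      ((hmU S).comp (hmc S)).aestronglyMeasurable ((hmU T).comp (hmc T)).aestronglyMeasurable
  · -- the probability of a change
    unfold chg
    have hA : MeasurableSet {s : ℤ → Bool | s 0 ≠ s 1} := by
      have h1 : MeasurableSet {s : ℤ → Bool | s 0 = s 1} :=
        measurableSet_eq_fun (measurable_pi_apply 0) (measurable_pi_apply 1)
      exact h1.compl
    rw [real_re hc hA]
    congr 1

/-- the increments: one, except at the points of the hard-core sequence -/
def cH (t : ℤ → Bool) (j : ℤ) : ℕ := if HX j t = true then 0 else 1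

theorem cH_two (t : ℤ → Bool) (j : ℤ) : 1 ≤ cH t j + cH t (j + 1) := by
  unfold cH HX
  cases h1 : alt j t <;> cases h2 : alt (j + 1) t <;> cases h3 : alt (j + 1 + 1) t <;> simp

theorem cH_sum (t : ℤ → Bool) (i : ℤ) (m : ℕ) :
    m ≤ ∑ j ∈ Finset.range (2 * m), cH t (i + j) := by
  induction m with
  | zero => simp
  | succ m ih =>
    have e : 2 * (m + 1) = 2 * m + 1 + 1 := by ring
    rw [e, Finset.sum_range_succ, Finset.sum_range_succ]
    have h := cH_two t (i + (2 * m : ℕ))
    have e2 : i + ((2 * m + 1 : ℕ) : ℤ) = i + (2 * m : ℕ) + 1 := by push_cast; ring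
    rw [e2]
    omega

theorem measurable_cH (j : ℤ) : Measurable (fun t : ℤ → Bool => cH t j) := by
  unfold cH
  exact (measurable_of_countable (fun b : Bool => if b = true then 0 else 1)).comp
    (measurable_HX j)

/-- The composition of a sign law of range `m` and a sign law of range `2 m`. -/
theorem compose {m : ℕ} (hm : 1 ≤ m) {Q T : Measure (ℤ → Bool)} (hQ : SignLaw m Q)
    (hT : SignLaw (2 * m) T) :
    ∃ Q' : Measure (ℤ → Bool), SignLaw (2 * m) Q' ∧ chg Q' = (1 + chg T) / 2 * chg Q := by
  have hTp := hT.prob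
  have hH := hardcore hT
  have hg : Measurable (fun b : Bool => if b = true then 0 else 1 : Bool → ℕ) :=
    measurable_of_countable _
  have hstat : T.map (fun t j => cH t (j + 1)) = T.map (fun t j => cH t j) := by
    have hG : Measurable (fun (x : ℤ → Bool) (j : ℤ) => (if x j = true then 0 else 1 : ℕ)) :=
      measurable_pi_iff.2 fun j => hg.comp (measurable_pi_apply j)
    have h1 : Measurable (fun (t : ℤ → Bool) (j : ℤ) => HX (j + 1) t) :=
      measurable_pi_iff.2 fun j => measurable_HX (j + 1)
    have h0 : Measurable (fun (t : ℤ → Bool) (j : ℤ) => HX j t) :=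
      measurable_pi_iff.2 fun j => measurable_HX j
    have h2 := congrArg (fun μ => Measure.map
      (fun (x : ℤ → Bool) (j : ℤ) => (if x j = true then 0 else 1 : ℕ)) μ) hH.stat
    beta_reduce at h2
    rw [Measure.map_map hG h1, Measure.map_map hG h0] at h2
    exact h2
  have hdep : ∀ A B : Set ℤ, (∀ a ∈ A, ∀ b ∈ B, ((2 * m : ℕ) : ℤ) < |a - b|) →
      IndepFun (fun t (a : A) => cH t a) (fun t (b : B) => cH t b) T := by
    intro A B hAB
    have hG : ∀ C : Set ℤ, Measurable (fun (x : C → Bool) (j : C) =>
        (if x j = true then 0 else 1 : ℕ)) := fun C =>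
      measurable_pi_iff.2 fun j => hg.comp (measurable_pi_apply j)
    exact (hH.dep A B hAB).comp (hG A) (hG B)
  obtain ⟨Q', hQ', e⟩ := mixg hTp (k := 2 * m) (by omega) hQ measurable_cH hstat hdep
    (fun t i => cH_sum t i m)
  refine ⟨Q', hQ', ?_⟩
  rw [e]
  have hmH : MeasurableSet {t : ℤ → Bool | HX 0 t = true} :=
    (measurable_HX 0) (measurableSet_singleton true)
  have e1 : (fun t : ℤ → Bool => Q.real {s : ℤ → Bool | s 0 ≠ s (cH t 0 : ℤ)}) =
      ({t : ℤ → Bool | HX 0 t = true}ᶜ).indicator (fun _ => chg Q) := by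
    funext t
    by_cases h : HX 0 t = true
    · have h' : t ∉ {t : ℤ → Bool | HX 0 t = true}ᶜ := fun h2 => h2 h
      rw [Set.indicator_of_notMem h']
      simp [cH, h]
    · have h' : t ∈ {t : ℤ → Bool | HX 0 t = true}ᶜ := h
      rw [Set.indicator_of_mem h']
      simp [cH, h, chg]
  rw [e1, integral_indicator_const _ hmH.compl, probReal_compl_eq_one_sub hmH, HX_prob hT,
    smul_eq_mul]
  ring

end HC38bc51.RN
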