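import Mathlib
import Pool.Agent.Work.MP_38bc51_pr.RN.Mix
import Pool.Agent.Work.MP_38bc51_pr.R3.Main

/-!
# The limit constant: the bound from one sign law
-/

namespace HC38bc51.RN

open MeasureTheory ProbabilityTheory Filter HC38bc51.HC

/-- the probabilities of a sign change of the sign laws of range `m` -/
def CS (m : ℕ) : Set ℝ := {x : ℝ | ∃ Q : Measure (ℤ → Bool), SignLaw m Q ∧ x = chg Q}

theorem CS_nonneg {m : ℕ} : ∀ x ∈ CS m, 0 ≤ x := by
  rintro x ⟨Q, -, rfl⟩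
  exact measureReal_nonneg

theorem CS_bdd (m : ℕ) : BddBelow (CS m) := ⟨0, fun x hx => CS_nonneg x hx⟩

theorem CS_nonempty {m : ℕ} (hm : 1 ≤ m) : (CS m).Nonempty := by
  obtain ⟨L, -, -, h⟩ := limit
  obtain ⟨Q, hQ, -⟩ := h m hm
  exact ⟨_, Q, hQ, rfl⟩

/-- the least probability of a sign change -/
noncomputable def qs (m : ℕ) : ℝ := sInf (CS m)

theorem qs_nonneg (m : ℕ) : 0 ≤ qs m := Real.sInf_nonneg fun x hx => CS_nonneg x hx

theorem qs_le {m : ℕ} {Q : Measure (ℤ → Bool)} (hQ : SignLaw m Q) : qs m ≤ chg Q :=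
  csInf_le (CS_bdd m) ⟨Q, hQ, rfl⟩

theorem qs_two {m : ℕ} (hm : 1 ≤ m) : 2 * qs (2 * m) ≤ (1 + qs (2 * m)) * qs m := by
  have hb := qs_nonneg (2 * m)
  have h1 : ∀ s ∈ CS m, ∀ t ∈ CS (2 * m), 2 * qs (2 * m) ≤ (1 + t) * s := by
    rintro _ ⟨Q, hQ, rfl⟩ _ ⟨T, hT, rfl⟩
    obtain ⟨Q', hQ', e⟩ := compose hm hQ hT
    have h2 := qs_le hQ'
    rw [e] at h2
    linarith
  -- the infimum over `t`
  have h2 : ∀ s ∈ CS m, 2 * qs (2 * m) ≤ (1 + qs (2 * m)) * s := by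
    intro s hs
    have hs0 := CS_nonneg s hs
    rcases hs0.eq_or_lt with h0 | h0
    · obtain ⟨t, ht⟩ := CS_nonempty (m := 2 * m) (by omega)
      have h3 := h1 s hs t ht
      rw [← h0] at h3 ⊢
      simpa using h3
    · have h3 : 2 * qs (2 * m) / s - 1 ≤ qs (2 * m) := by
        refine le_csInf (CS_nonempty (by omega)) fun t ht => ?_
        have h4 := h1 s hs t ht
        rw [sub_le_iff_le_add, div_le_iff₀ h0]
        linarith
      rw [sub_le_iff_le_add, div_le_iff₀ h0] at h3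
      linarith
  -- the infimum over `s`
  have h3 : 2 * qs (2 * m) / (1 + qs (2 * m)) ≤ qs m := by
    refine le_csInf (CS_nonempty hm) fun s hs => ?_
    rw [div_le_iff₀ (by linarith)]
    have := h2 s hs
    linarith
  rw [div_le_iff₀ (by linarith)] at h3
  linarith

theorem qs_pow {m : ℕ} (hm : 1 ≤ m) {Q : Measure (ℤ → Bool)} (hQ : SignLaw m Q)
    (hq : chg Q ≤ 1) (j : ℕ) :
    qs (2 ^ j * m) * (chg Q + 2 ^ j * (1 - chg Q)) ≤ chg Q := by
  induction j with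
  | zero =>
    have h1 := qs_le hQ
    simpa using h1
  | succ j ih =>
    have hb := qs_nonneg (2 ^ j * m)
    have hb' := qs_nonneg (2 ^ (j + 1) * m)
    have h1 := qs_two (m := 2 ^ j * m) (Nat.mul_pos (by positivity) hm)
    have e : 2 * (2 ^ j * m) = 2 ^ (j + 1) * m := by ring
    rw [e] at h1
    have hc : 0 ≤ chg Q := measureReal_nonneg
    have h2 : 0 ≤ 2 ^ j * (1 - chg Q) := by
      have : (0 : ℝ) ≤ 1 - chg Q := by linarith
      positivity
    set x := chg Q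
    set c : ℝ := 2 ^ j * (1 - x)
    set b := qs (2 ^ j * m)
    set b' := qs (2 ^ (j + 1) * m)
    have e2 : (2 : ℝ) ^ (j + 1) * (1 - x) = 2 * c := by simp only [c]; ring
    rw [e2]
    -- `2 b' ≤ (1 + b') b`, `b (x + c) ≤ x`
    have h3 : 2 * b' * (x + c) ≤ (1 + b') * x := by
      calc 2 * b' * (x + c) ≤ (1 + b') * b * (x + c) :=
            mul_le_mul_of_nonneg_right h1 (by linarith)
        _ = (1 + b') * (b * (x + c)) := by ring
        _ ≤ (1 + b') * x := mul_le_mul_of_nonneg_left ih (by linarith)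
    linarith

theorem pcrit_qs {k : ℕ} (hk : 1 ≤ k) : 1 / 2 - qs k / 2 ≤ pcrit k := by
  have h : 1 - 2 * pcrit k ≤ qs k := by
    refine le_csInf (CS_nonempty hk) ?_
    rintro _ ⟨Q, hQ, rfl⟩
    have := hard hQ
    linarith
  linarith

/-- Sign laws of every range bound the limit from above. -/
theorem limit_le {L : ℝ}
    (hL : Tendsto (fun k : ℕ => 2 * (k : ℝ) * (1 / 2 - pcrit k)) atTop (nhds L))
    {m : ℕ} (hm : 1 ≤ m) {Q : Measure (ℤ → Bool)} (hQ : SignLaw m Q) :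
    L * (1 - chg Q) ≤ m * chg Q := by
  have hQp := hQ.prob
  have hc : 0 ≤ chg Q := measureReal_nonneg
  have hc1 : chg Q ≤ 1 := measureReal_le_one
  have h1 : Tendsto (fun j : ℕ => 2 * ((2 ^ j * m : ℕ) : ℝ) * (1 / 2 - pcrit (2 ^ j * m))) atTop
      (nhds L) := by
    have h2 : Tendsto (fun j : ℕ => 2 ^ j * m) atTop atTop :=
      (tendsto_pow_atTop_atTop_of_one_lt (by norm_num : 1 < 2)).atTop_mul_const' (by omega)
    exact hL.comp h2
  have h2 : Tendsto (fun j : ℕ => 2 * ((2 ^ j * m : ℕ) : ℝ) * (1 / 2 - pcrit (2 ^ j * m)) *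
      (1 - chg Q)) atTop (nhds (L * (1 - chg Q))) := h1.mul_const _
  refine le_of_tendsto h2 (Eventually.of_forall fun j => ?_)
  have h3 := qs_pow hm hQ hc1 j
  have h4 := pcrit_qs (k := 2 ^ j * m) (Nat.mul_pos (by positivity) hm)
  have hb := qs_nonneg (2 ^ j * m)
  have hm0 : (0 : ℝ) ≤ m := Nat.cast_nonneg m
  have h5 : 2 * (1 / 2 - pcrit (2 ^ j * m)) ≤ qs (2 ^ j * m) := by linarith
  have h6 : (0 : ℝ) ≤ 2 ^ j * (1 - chg Q) := by
    have : (0 : ℝ) ≤ 1 - chg Q := by linarith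
    positivity
  have h7 : qs (2 ^ j * m) * (2 ^ j * (1 - chg Q)) ≤ chg Q := by
    refine le_trans ?_ h3
    exact mul_le_mul_of_nonneg_left (by linarith) hb
  push_cast
  calc 2 * ((2 : ℝ) ^ j * m) * (1 / 2 - pcrit (2 ^ j * m)) * (1 - chg Q)
      = m * ((2 * (1 / 2 - pcrit (2 ^ j * m))) * (2 ^ j * (1 - chg Q))) := by ring
    _ ≤ m * (qs (2 ^ j * m) * (2 ^ j * (1 - chg Q))) :=
        mul_le_mul_of_nonneg_left (mul_le_mul_of_nonneg_right h5 h6) hm0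
    _ ≤ m * chg Q := mul_le_mul_of_nonneg_left h7 hm0

/-- the bounds for `p_k` along the multiples of `m` by powers of two -/
theorem pcrit_pow {m : ℕ} (hm : 1 ≤ m) {Q : Measure (ℤ → Bool)} (hQ : SignLaw m Q)
    (hq : 0 < chg Q) (j : ℕ) :
    1 / 2 - chg Q / (2 * (chg Q + 2 ^ j * (1 - chg Q))) ≤ pcrit (2 ^ j * m) := by
  have hQp := hQ.prob
  have hc1 : chg Q ≤ 1 := measureReal_le_one
  have h3 := qs_pow hm hQ hc1 j
  have h4 := pcrit_qs (k := 2 ^ j * m) (Nat.mul_pos (by positivity) hm)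
  have h6 : (0 : ℝ) ≤ 2 ^ j * (1 - chg Q) := by
    have : (0 : ℝ) ≤ 1 - chg Q := by linarith
    positivity
  have h7 : 0 < chg Q + 2 ^ j * (1 - chg Q) := by linarith
  have h8 : qs (2 ^ j * m) ≤ chg Q / (chg Q + 2 ^ j * (1 - chg Q)) := by
    rw [le_div_iff₀ h7]
    exact h3
  have h9 : chg Q / (2 * (chg Q + 2 ^ j * (1 - chg Q))) =
      chg Q / (chg Q + 2 ^ j * (1 - chg Q)) / 2 := by
    rw [div_div, mul_comm 2]
  rw [h9]
  linarith

theorem sqrt15 : (3.8729 : ℝ) < √15 ∧ √15 < 3.873 := by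
  constructor
  · rw [Real.lt_sqrt (by norm_num)]; norm_num
  · rw [Real.sqrt_lt' (by norm_num)]; norm_num

theorem main : ∃ L : ℝ,
    Tendsto (fun k : ℕ => 2 * (k : ℝ) * (1 / 2 - pcrit k)) atTop (nhds L) ∧
    (∀ m : ℕ, 1 ≤ m → (∃ Q : Measure (ℤ → Bool), SignLaw m Q ∧ (m : ℝ) * chg Q ≤ L) ∧
      ∀ Q : Measure (ℤ → Bool), SignLaw m Q → L * (1 - chg Q) ≤ m * chg Q) ∧
    2 / 3 < L ∧ L ≤ (12291 - 2700 * √15) / 2153 ∧
    (∀ᶠ k : ℕ in atTop, pcrit k < 1 / 2 - 1 / (3 * (k : ℝ))) ∧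
    (∀ k : ℕ, 1 ≤ k → 1 / 2 - (12291 - 2700 * √15) / (4306 * k) ≤ pcrit k) ∧
    ∀ h : ℕ, 1 ≤ h → 1 / 2 - (1 - 18 * √15 / 125) / ((3 * h : ℕ) + 1) ≤ pcrit (3 * h) := by
  obtain ⟨L, hL, hm, hlt, hk⟩ := HC38bc51.LP.main
  have hm' : ∀ m : ℕ, 1 ≤ m → ∀ Q : Measure (ℤ → Bool), SignLaw m Q →
      L * (1 - chg Q) ≤ m * chg Q := fun m h Q hQ => limit_le hL h hQ
  have hsq : √15 * √15 = 15 := Real.mul_self_sqrt (by norm_num)
  obtain ⟨b1, b2⟩ := sqrt15
  have hle : L ≤ (12291 - 2700 * √15) / 2153 := by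
    obtain ⟨Q, hQ, e⟩ := R3.seq3
    have h1 := hm' 3 (by norm_num) Q hQ
    rw [e] at h1
    push_cast at h1
    -- `L (125 + 18 √15) ≤ 3 (125 - 18 √15)`
    have h2 : L * (125 + 18 * √15) ≤ 3 * (125 - 18 * √15) := by linarith
    have h3 : (12291 - 2700 * √15) / 2153 * (125 + 18 * √15) = 3 * (125 - 18 * √15) := by
      have : (12291 - 2700 * √15) / 2153 * (125 + 18 * √15)
          = (12291 * 125 + (12291 * 18 - 2700 * 125) * √15 - 2700 * 18 * (√15 * √15)) / 2153 := by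
        ring
      rw [this, hsq]
      ring
    rw [← h3] at h2
    exact le_of_mul_le_mul_right h2 (by positivity)
  refine ⟨L, hL, fun m h1 => ⟨(hm m h1).1, hm' m h1⟩, hlt, hle, hk, fun k h1 => ?_,
    fun h hh => R3.pcrit_three hh⟩
  obtain ⟨L', hL', hterm, -⟩ := limit
  have heq : L' = L := tendsto_nhds_unique hL' hL
  have h2 := hterm k h1
  rw [heq] at h2
  have hk0 : (0 : ℝ) < k := by exact_mod_cast h1
  have h3 : 1 / 2 - pcrit k ≤ (12291 - 2700 * √15) / (4306 * k) := by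
    rw [le_div_iff₀ (by positivity)]
    have h4 : 2 * (k : ℝ) * (1 / 2 - pcrit k) ≤ (12291 - 2700 * √15) / 2153 := h2.trans hle
    rw [le_div_iff₀ (by norm_num)] at h4
    linarith
  linarith

end HC38bc51.RN
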